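import Mathlib
import Pool.Agent.Y242.AC15

set_option autoImplicit false

open Complex Metric Set

namespace Pool.Agent.Results.MP_1f2de8_an.AlphaConvexCoeff

/-- The class `M(α)` of α-convex functions: `f` holomorphic and injective on the open unit disc,
`f 0 = 0`, `f' 0 = 1` and `Re [α (1 + z f''/f') + (1 - α) z f'/f] > 0` (at `z = 0` the quotient
`z f'/f` is read as its limit `1`, so the inequality is automatic there). -/
def ClassM (α : ℝ) : Set (ℂ → ℂ) :=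
  {f | DifferentiableOn ℂ f (ball 0 1) ∧ InjOn f (ball 0 1) ∧ f 0 = 0 ∧ deriv f 0 = 1 ∧
    ∀ z ∈ ball (0 : ℂ) 1, z ≠ 0 →
      0 < (α * (1 + z * deriv (deriv f) z / deriv f z) + (1 - α) * (z * deriv f z / f z)).re}

/-- `g_k = (2/α) (2/α + 1) ⋯ (2/α + k - 1) / (k! (1 + k α))`, the Taylor coefficients of the
hypergeometric function `₂F₁(2/α, 1/α; 1 + 1/α; z)`. -/
noncomputable def g (α : ℝ) (k : ℕ) : ℝ :=
  (∏ j ∈ Finset.range k, (2 / α + j)) / (k.factorial * (1 + k * α))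

/-- The extremal values: `A 1 = 1` and, for `m ≥ 1`,
`m A (m+1) = ∑_{k=1}^{m} ((1 + α) k - m) g_k A (m + 1 - k)`. -/
noncomputable def A (α : ℝ) : ℕ → ℝ
  | 0 => 0
  | 1 => 1
  | (m + 2) => (∑ k : Fin (m + 1), ((1 + α) * (k + 1) - (m + 1)) * g α (k + 1) *
      A α (m + 1 - k)) / (m + 1)
  decreasing_by omega

theorem A_eq {α b : ℝ} (hb : 1 < b) (hab : α * b = 1) (m : ℕ) :
    Y242.AC.tc m (Y242.AC.Ff α) = (A α (m + 1) : ℂ) := by
  induction m using Nat.strong_induction_on with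
  | _ m ih =>
    rcases m with _ | m
    · rw [Y242.AC.tc_zero, Y242.AC.F_zero hb hab, A]; simp
    · have h := Y242.AC.F_recg hb hab m
      have h1 : (m + 1 : ℂ) ≠ 0 := by exact_mod_cast Nat.succ_ne_zero m
      rw [A]
      push_cast
      rw [eq_div_iff h1, mul_comm, h, Finset.sum_range]
      apply Finset.sum_congr rfl
      intro i _
      have hi := i.2
      rw [ih (m - i) (by omega), show m - (i : ℕ) + 1 = m + 1 - i by omega]
      rfl

theorem A_pos {α b : ℝ} (hb : 1 < b) (hab : α * b = 1) (m : ℕ) : 0 < A α (m + 1) := by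
  obtain ⟨x, hx, hx0⟩ := Y242.AC.F_pos hb hab m
  rw [A_eq hb hab] at hx
  have : A α (m + 1) = x := by exact_mod_cast hx
  rw [this]; exact hx0

/-- For every `α ∈ (0,1)` and `n ≥ 2` the maximum of `|a_n|` over `M(α)` equals `A α n`, and a
single function is extremal for all `n`. -/
theorem result (α : ℝ) (hα0 : 0 < α) (hα1 : α < 1) :
    (∀ n : ℕ, 2 ≤ n →
      IsGreatest {x : ℝ | ∃ f ∈ ClassM α, x = ‖iteratedDeriv n f 0 / n.factorial‖} (A α n)) ∧
    ∃ f ∈ ClassM α, ∀ n : ℕ, iteratedDeriv n f 0 / n.factorial = (A α n : ℂ) := by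
  have hb : 1 < α⁻¹ := (one_lt_inv₀ hα0).2 hα1
  have hab : α * α⁻¹ = 1 := mul_inv_cancel₀ hα0.ne'
  have hext : (fun z => z * Y242.AC.Ff α z) ∈ ClassM α := Y242.AC.ext_mem hb hab
  have hcoef : ∀ n : ℕ, iteratedDeriv n (fun z => z * Y242.AC.Ff α z) 0 / n.factorial =
      (A α n : ℂ) := by
    intro n
    change Y242.AC.tc n (fun z => z * Y242.AC.Ff α z) = _
    rcases n with _ | n
    · rw [Y242.AC.tc_zero, A]; simp
    · rw [Y242.AC.tc_z_mul (Y242.AC.F_diff hb hab), A_eq hb hab]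
  refine ⟨fun n hn => ⟨⟨_, hext, ?_⟩, ?_⟩, _, hext, hcoef⟩
  · obtain ⟨m, rfl⟩ : ∃ m, n = m + 1 := ⟨n - 1, by omega⟩
    rw [hcoef, norm_real, Real.norm_of_nonneg (A_pos hb hab m).le]
  · rintro _ ⟨f, hf, rfl⟩
    obtain ⟨m, rfl⟩ : ∃ m, n = m + 1 := ⟨n - 1, by omega⟩
    refine (Y242.AC.upper hb hab hf m).trans (le_of_eq ?_)
    rw [A_eq hb hab, norm_real, Real.norm_of_nonneg (A_pos hb hab m).le]

end Pool.Agent.Results.MP_1f2de8_an.AlphaConvexCoeff
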